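import Mathlib
import Pool.Agent.Helper56.PD.Main

/-!
# Measurable Hermitian functions as differences of measurable positive definite ones

For every `0 < A ≤ ∞`, every Lebesgue measurable Hermitian `f ∈ R_A` is a difference of two
Lebesgue measurable elements of `P_A`.
-/

open MeasureTheory

namespace Pool.Agent.Results.MP_54c4ce_an.HermitianDecomposition

/-- The open interval `(-A, A)` of the real line, where `A` may be `∞`. -/
def interval (A : EReal) : Set ℝ := {x : ℝ | -A < (x : EReal) ∧ (x : EReal) < A}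

/-- The value at `t` of the finite exponential sum `p(t) = ∑ c_l e^{ilt}` with frequencies
`l` in `(-A, A)`.  The finitely supported functions `c` parametrise `AP_A`. -/
noncomputable def expSum {A : EReal} (c : interval A →₀ ℂ) (t : ℝ) : ℂ :=
  c.sum fun l a => a * Complex.exp (Complex.I * ((l : ℝ) : ℂ) * (t : ℂ))

/-- The linear functional `Φ_f(p) = ∑ c_l f(l)`. -/
noncomputable def Phi {A : EReal} (f : interval A → ℂ) (c : interval A →₀ ℂ) : ℂ :=
  c.sum fun l a => a * f l

/-- `f ∈ R_A`: the functional `Φ_f` is bounded on `AP_A` for the norm `sup_t |p(t)|`. -/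
def MemR {A : EReal} (f : interval A → ℂ) : Prop :=
  ∃ C : ℝ, ∀ c : interval A →₀ ℂ, ‖Phi f c‖ ≤ C * ⨆ t : ℝ, ‖expSum c t‖

/-- `f ∈ P_A`: `f ∈ R_A` and `Φ_f(p) ≥ 0` whenever `p ∈ AP_A` satisfies `p(t) ≥ 0` for all
real `t`. -/
def MemP {A : EReal} (f : interval A → ℂ) : Prop :=
  MemR f ∧ ∀ c : interval A →₀ ℂ,
    (∀ t : ℝ, 0 ≤ (expSum c t).re ∧ (expSum c t).im = 0) → 0 ≤ (Phi f c).re ∧ (Phi f c).im = 0

/-- `f(-l) = conj f(l)` for all `l` in `(-A, A)`. -/
def Hermitian {A : EReal} (f : interval A → ℂ) : Prop :=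
  ∀ l m : interval A, (m : ℝ) = -(l : ℝ) → f m = (starRingEnd ℂ) (f l)

/-- `f` is Lebesgue measurable on `(-A, A)`: preimages of open sets are Lebesgue measurable
subsets of the line. -/
def LebesgueMeas {A : EReal} (f : interval A → ℂ) : Prop :=
  ∀ V : Set ℂ, IsOpen V →
    NullMeasurableSet ((fun x : interval A => (x : ℝ)) '' (f ⁻¹' V)) (volume : Measure ℝ)

open Pool.Agent.Helper56.PD

theorem interval_neg {A : EReal} {l : ℝ} (hl : l ∈ interval A) : -l ∈ interval A := by
  obtain ⟨h1, h2⟩ := hl
  refine ⟨?_, ?_⟩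
  · rw [EReal.coe_neg]; exact EReal.neg_lt_neg_iff.2 h2
  · rw [EReal.coe_neg]; exact EReal.neg_lt_comm.1 h1

theorem isOpen_interval (A : EReal) : IsOpen (interval A) := by
  apply IsOpen.inter
  · exact isOpen_lt continuous_const continuous_coe_real_ereal
  · exact isOpen_lt continuous_coe_real_ereal continuous_const

open Classical in
/-- extension by zero -/
noncomputable def extendZero {A : EReal} (f : interval A → ℂ) (x : ℝ) : ℂ :=
  if h : x ∈ interval A then f ⟨x, h⟩ else 0

theorem extendZero_apply {A : EReal} (f : interval A → ℂ) (x : interval A) : extendZero f x = f x := by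
  simp [extendZero]

theorem extendZero_preimage {A : EReal} (f : interval A → ℂ) (V : Set ℂ) :
    extendZero f ⁻¹' V ∩ interval A = (fun x : interval A => (x : ℝ)) '' (f ⁻¹' V) := by
  ext x
  constructor
  · rintro ⟨h1, h2⟩
    refine ⟨⟨x, h2⟩, ?_, rfl⟩
    have := extendZero_apply f ⟨x, h2⟩
    rw [Set.mem_preimage, ← this]
    exact h1
  · rintro ⟨y, hy, rfl⟩
    refine ⟨?_, y.2⟩
    rw [Set.mem_preimage, extendZero_apply]
    exact hy

theorem extendZero_aemeasurable {A : EReal} {f : interval A → ℂ} (hf : LebesgueMeas f) :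
    AEMeasurable (extendZero f) (volume.restrict (interval A)) := by
  classical
  have hI : MeasurableSet (interval A) := (isOpen_interval A).measurableSet
  have h1 : NullMeasurable (extendZero f) (volume : Measure ℝ) := by
    have h2 : @Measurable (NullMeasurableSpace ℝ volume) ℂ _ _ (extendZero f) := by
      refine measurable_of_isOpen (fun V hV => ?_)
      show NullMeasurableSet (extendZero f ⁻¹' V) volume
      have h3 : extendZero f ⁻¹' V = (extendZero f ⁻¹' V ∩ interval A) ∪
          ((if (0:ℂ) ∈ V then Set.univ else ∅) ∩ (interval A)ᶜ) := by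
        ext x
        by_cases hx : x ∈ interval A
        · simp [hx]
        · have : extendZero f x = 0 := by simp [extendZero, hx]
          by_cases h0 : (0:ℂ) ∈ V
          · simp [hx, this, h0]
          · simp [hx, this, h0]
      rw [h3, extendZero_preimage]
      refine (hf V hV).union ?_
      refine NullMeasurableSet.inter ?_ hI.compl.nullMeasurableSet
      split_ifs
      · exact MeasurableSet.univ.nullMeasurableSet
      · exact MeasurableSet.empty.nullMeasurableSet
    exact fun s hs => h2 hs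
  exact h1.aemeasurable.restrict

theorem lebesgueMeas_of {A : EReal} {g : ℝ → ℂ} (hg : AEMeasurable g volume) :
    LebesgueMeas (A := A) (fun x => g x) := by
  intro V hV
  have h1 : (fun x : interval A => (x : ℝ)) '' ((fun x : interval A => g x) ⁻¹' V) =
      g ⁻¹' V ∩ interval A := by
    ext x
    constructor
    · rintro ⟨y, hy, rfl⟩
      exact ⟨hy, y.2⟩
    · rintro ⟨h1, h2⟩
      exact ⟨⟨x, h2⟩, h1, rfl⟩
  rw [h1]
  exact (hg.nullMeasurable hV.measurableSet).inter (isOpen_interval A).measurableSet.nullMeasurableSet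

theorem expSum_sub {A : EReal} (c : ℝ →₀ ℂ) (hc : ↑c.support ⊆ interval A) (t : ℝ) :
    expSum (A := A) (c.subtypeDomain (· ∈ interval A)) t = eSum c t := by
  unfold expSum eSum
  exact Finsupp.sum_subtypeDomain_index (v := c)
    (h := fun l a => a * Complex.exp (Complex.I * l * t)) (fun x hx => hc hx)

theorem Phi_sub {A : EReal} (f : interval A → ℂ) (c : ℝ →₀ ℂ) (hc : ↑c.support ⊆ interval A) :
    Phi (A := A) f (c.subtypeDomain (· ∈ interval A)) = phi (extendZero f) c := by
  unfold Phi phi
  rw [← Finsupp.sum_subtypeDomain_index (v := c) (p := (· ∈ interval A))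
    (h := fun l a => a * extendZero f l) (fun x hx => hc hx)]
  refine Finsupp.sum_congr fun x _ => ?_
  rw [extendZero_apply]

theorem expSum_map {A : EReal} (c : interval A →₀ ℂ) (t : ℝ) :
    eSum (c.mapDomain Subtype.val) t = expSum c t := by
  unfold expSum eSum
  rw [Finsupp.sum_mapDomain_index_inj Subtype.val_injective]

theorem Phi_map {A : EReal} (g : ℝ → ℂ) (c : interval A →₀ ℂ) :
    phi g (c.mapDomain Subtype.val) = Phi (fun x : interval A => g x) c := by
  unfold Phi phi
  rw [Finsupp.sum_mapDomain_index_inj Subtype.val_injective]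

theorem bdd_expSum {A : EReal} (c : interval A →₀ ℂ) :
    BddAbove (Set.range fun t : ℝ => ‖expSum c t‖) := by
  refine ⟨∑ l ∈ (c.mapDomain Subtype.val).support, ‖(c.mapDomain Subtype.val) l‖, ?_⟩
  rintro _ ⟨t, rfl⟩
  show ‖expSum c t‖ ≤ _
  rw [← expSum_map]
  exact norm_eSum_le _ t

theorem memP_of_posType {A : EReal} {g : ℝ → ℂ} (hg : PosType g) :
    MemP (A := A) (fun x => g x) := by
  refine ⟨⟨(g 0).re, ?_⟩, ?_⟩
  · intro c
    rw [← Phi_map]
    apply hg.bound
    intro t
    rw [expSum_map]
    exact le_ciSup (bdd_expSum c) t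
  · intro c hc
    rw [← Phi_map]
    have := hg (c.mapDomain Subtype.val) (by
      intro t
      rw [expSum_map]
      exact Complex.le_def.2 ⟨(hc t).1, (hc t).2.symm⟩)
    have h2 := Complex.le_def.1 this
    exact ⟨h2.1, h2.2.symm⟩

/-- **Full positive answer to Q1.**  For every `0 < A ≤ ∞`, every Lebesgue measurable Hermitian
`f ∈ R_A` can be written as `f = f₁ - f₂` with `f₁`, `f₂` Lebesgue measurable elements of
`P_A`. -/
theorem result : ∀ A : EReal, 0 < A → ∀ f : interval A → ℂ,
    MemR f → LebesgueMeas f → Hermitian f →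
    ∃ f₁ f₂ : interval A → ℂ, (MemP f₁ ∧ LebesgueMeas f₁) ∧ (MemP f₂ ∧ LebesgueMeas f₂) ∧
      ∀ x, f x = f₁ x - f₂ x := by
  intro A hA f hR hm hH
  obtain ⟨C, hC⟩ := hR
  have hmeas := extendZero_aemeasurable hm
  obtain ⟨F₁, F₂, hF₁, hF₂, hF⟩ := hahn_banach (interval A) (fun l hl => interval_neg hl) (extendZero f)
    (by
      intro l hl
      have h1 := extendZero_apply f ⟨l, hl⟩
      have h2 := extendZero_apply f ⟨-l, interval_neg hl⟩
      simp only at h1 h2
      rw [h1, h2]
      exact hH ⟨l, hl⟩ ⟨-l, interval_neg hl⟩ rfl)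
    |C| (abs_nonneg C)
    (by
      intro c hc B hB
      rw [← Phi_sub f c hc]
      refine (hC _).trans ?_
      have h1 : ⨆ t : ℝ, ‖expSum (A := A) (c.subtypeDomain (· ∈ interval A)) t‖ ≤ B := by
        apply ciSup_le
        intro t
        rw [expSum_sub c hc]
        exact hB t
      have h0 : 0 ≤ ⨆ t : ℝ, ‖expSum (A := A) (c.subtypeDomain (· ∈ interval A)) t‖ :=
        Real.iSup_nonneg fun t => norm_nonneg _
      calc C * (⨆ t : ℝ, ‖expSum (A := A) (c.subtypeDomain (· ∈ interval A)) t‖)
          ≤ |C| * (⨆ t : ℝ, ‖expSum (A := A) (c.subtypeDomain (· ∈ interval A)) t‖) :=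
            mul_le_mul_of_nonneg_right (le_abs_self C) h0
        _ ≤ |C| * B := mul_le_mul_of_nonneg_left h1 (abs_nonneg C))
  have hmeas2 : AEMeasurable (fun x => F₁ x - F₂ x) (volume.restrict (interval A)) := by
    refine hmeas.congr ?_
    filter_upwards [ae_restrict_mem (isOpen_interval A).measurableSet] with x hx
    exact hF x hx
  have key : ∃ g₁ g₂ : ℝ → ℂ, PosType g₁ ∧ PosType g₂ ∧ AEMeasurable g₁ volume ∧
      AEMeasurable g₂ volume ∧ ∀ x ∈ interval A, F₁ x - F₂ x = g₁ x - g₂ x := by
    induction A using EReal.rec with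
    | bot => exact absurd hA (by simp)
    | coe a =>
      have ha : 0 < a := by exact_mod_cast hA
      have hI : interval (a : EReal) = Set.Ioo (-a) a := by
        ext x
        simp only [interval, Set.mem_Ioo]
        constructor
        · rintro ⟨h1, h2⟩
          constructor
          · rw [← EReal.coe_neg] at h1
            exact_mod_cast h1
          · exact_mod_cast h2
        · rintro ⟨h1, h2⟩
          constructor
          · rw [← EReal.coe_neg]
            exact_mod_cast h1
          · exact_mod_cast h2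
      rw [hI] at hmeas2 ⊢
      exact main_finite ha hF₁ hF₂ hmeas2
    | top =>
      have hI : interval (⊤ : EReal) = Set.univ := by
        ext x
        simp [interval, EReal.bot_lt_coe, EReal.coe_lt_top]
      rw [hI, Measure.restrict_univ] at hmeas2
      obtain ⟨g₁, g₂, h1, h2, h3, h4, h5⟩ := main_infinite hF₁ hF₂ hmeas2
      exact ⟨g₁, g₂, h1, h2, h3, h4, fun x _ => h5 x⟩
  obtain ⟨g₁, g₂, h1, h2, h3, h4, h5⟩ := key
  refine ⟨fun x => g₁ x, fun x => g₂ x, ⟨memP_of_posType h1, lebesgueMeas_of h3⟩,
    ⟨memP_of_posType h2, lebesgueMeas_of h4⟩, ?_⟩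
  intro x
  rw [← h5 x x.2, ← hF x x.2, extendZero_apply]

end Pool.Agent.Results.MP_54c4ce_an.HermitianDecomposition
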